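import Pool.Agent.Q181.TG.Stm4

set_option autoImplicit false

/-!
Project TG (helper181), job TG-CYC (helper150): the torsion of `Qt X σ ξ η` is a product over the cycles.
-/

namespace Pool.Agent.Q150.TG

open Pool.Agent.Q181.TG Filter Topology

section cyc

variable {X : Type} (σ : Equiv.Perm X)

/-- the classes -/
abbrev CB : Type := Quotient (Equiv.Perm.SameCycle.setoid σ)

/-- the length of the cycle -/
noncomputable def len (b : CB σ) : ℕ := Function.minimalPeriod σ b.out

/-- the points of the cycle -/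
noncomputable def pt (b : CB σ) (j : ZMod (len σ b)) : X := σ^[j.val] b.out

lemma per [Finite X] (x : X) : x ∈ Function.periodicPts σ := by
  refine ⟨orderOf σ, orderOf_pos σ, ?_⟩
  change σ^[orderOf σ] x = x
  rw [← Equiv.Perm.coe_pow, pow_orderOf_eq_one]
  rfl

lemma len_pos [Finite X] (b : CB σ) : 0 < len σ b :=
  Function.minimalPeriod_pos_of_mem_periodicPts (per σ _)

lemma pt_succ [Finite X] (b : CB σ) (j : ZMod (len σ b)) : σ (pt σ b j) = pt σ b (j + 1) := by
  have : NeZero (len σ b) := ⟨(len_pos σ b).ne'⟩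
  have h1 : (j + 1).val = (j.val + 1) % len σ b := by
    rw [ZMod.val_add, ZMod.val_one_eq_one_mod, Nat.add_mod_mod]
  unfold pt
  rw [h1]
  unfold len
  rw [Function.iterate_mod_minimalPeriod_eq, Function.iterate_succ_apply']

lemma pt_mk (b : CB σ) (j : ZMod (len σ b)) :
    (Quotient.mk (Equiv.Perm.SameCycle.setoid σ) (pt σ b j)) = b := by
  conv_rhs => rw [← Quotient.out_eq b]
  apply Quotient.sound
  change Equiv.Perm.SameCycle σ _ _
  apply Equiv.Perm.SameCycle.symm
  refine ⟨(j.val : ℤ), ?_⟩
  rw [zpow_natCast, Equiv.Perm.coe_pow]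
  rfl

lemma pt_inj [Finite X] (b : CB σ) : Function.Injective (pt σ b) := by
  have : NeZero (len σ b) := ⟨(len_pos σ b).ne'⟩
  intro i j hij
  apply ZMod.val_injective
  exact Function.iterate_injOn_Iio_minimalPeriod (ZMod.val_lt i) (ZMod.val_lt j) hij

lemma pt_surj [Finite X] (x : X) : ∃ (b : CB σ) (j : ZMod (len σ b)), pt σ b j = x := by
  set b : CB σ := Quotient.mk (Equiv.Perm.SameCycle.setoid σ) x with hb
  have : NeZero (len σ b) := ⟨(len_pos σ b).ne'⟩
  have h1 : Equiv.Perm.SameCycle σ b.out x := Quotient.exact (Quotient.out_eq b)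
  obtain ⟨i, hi⟩ := h1.exists_nat_pow_eq
  refine ⟨b, (i : ZMod (len σ b)), ?_⟩
  unfold pt
  rw [ZMod.val_natCast]
  unfold len
  rw [Function.iterate_mod_minimalPeriod_eq, ← hi, Equiv.Perm.coe_pow]

/-- the parametrisation -/
noncomputable def par [Finite X] : (Σ b : CB σ, ZMod (len σ b)) ≃ X :=
  Equiv.ofBijective (fun p => pt σ p.1 p.2) ⟨by
    rintro ⟨b, j⟩ ⟨b', j'⟩ h
    simp only at h
    have h1 : b = b' := by rw [← pt_mk σ b j, h, pt_mk σ b' j']
    subst h1
    rw [pt_inj σ b h], fun x => by
    obtain ⟨b, j, h⟩ := pt_surj σ x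
    exact ⟨⟨b, j⟩, h⟩⟩

lemma par_apply [Finite X] (b : CB σ) (j : ZMod (len σ b)) : par σ ⟨b, j⟩ = pt σ b j := rfl

lemma pt_period [Finite X] (b : CB σ) (j : ZMod (len σ b)) :
    Function.minimalPeriod σ (pt σ b j) = len σ b := by
  unfold pt len
  exact Function.minimalPeriod_apply_iterate (per σ _) _

variable {E : Type} [AddCommGroup E] (ξ η : E)

/-- the restriction to the cycles -/
noncomputable def res : (X → E) →+ (∀ b : CB σ, Qt (ZMod (len σ b)) (fun j => j + 1) ξ η) where
  toFun f b := QuotientAddGroup.mk (fun j => f (pt σ b j))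
  map_zero' := by
    funext b
    rfl
  map_add' f g := by
    funext b
    rfl

lemma res_surj [Finite X] : Function.Surjective (res σ ξ η) := by
  intro q
  choose w hw using fun b => QuotientAddGroup.mk_surjective (q b)
  refine ⟨fun x => w ((par σ).symm x).1 ((par σ).symm x).2, ?_⟩
  funext b
  change QuotientAddGroup.mk (fun j => _) = q b
  rw [← hw b]
  congr 1
  funext j
  rw [← par_apply]
  change w ((par σ).symm (par σ ⟨b, j⟩)).1 ((par σ).symm (par σ ⟨b, j⟩)).2 = w b j
  rw [Equiv.symm_apply_apply]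

open Classical in
/-- the extension by zero -/
noncomputable def ext [Finite X] (b : CB σ) [Fintype (ZMod (len σ b))] :
    (ZMod (len σ b) → E) →+ (X → E) where
  toFun w x := ∑ j, if pt σ b j = x then w j else 0
  map_zero' := by
    funext x
    simp
  map_add' w z := by
    funext x
    rw [Pi.add_apply, ← Finset.sum_add_distrib]
    apply Finset.sum_congr rfl
    intro j _
    split_ifs <;> simp

lemma ext_mem [Finite X] (b : CB σ) [Fintype (ZMod (len σ b))] (w : ZMod (len σ b) → E)
    (hw : w ∈ Qr (ZMod (len σ b)) (fun j => j + 1) ξ η) :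
    ext σ b w ∈ Qr X σ ξ η := by
  classical
  unfold Qr at hw
  induction hw using AddSubgroup.closure_induction with
  | mem w hw =>
    obtain ⟨j, rfl⟩ := hw
    unfold Qr
    apply AddSubgroup.subset_closure
    refine ⟨pt σ b j, ?_⟩
    funext x
    change _ = ∑ i, if pt σ b i = x then _ else 0
    refine Eq.symm (Eq.trans (Finset.sum_congr rfl (fun i _ => (?_ : _ =
      (if i = j then (if pt σ b j = x then ξ else 0) else 0) +
        (if i = j + 1 then (if pt σ b (j + 1) = x then η else 0) else 0)))) ?_)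
    · simp only [Pi.add_apply, Pi.single_apply]
      by_cases h1 : i = j <;> by_cases h2 : i = j + 1
      · rw [if_pos h1, if_pos h2, if_pos h1, if_pos h2, ← h2, ← h1]
        by_cases h3 : pt σ b i = x
        · rw [if_pos h3, if_pos h3, if_pos h3]
        · rw [if_neg h3, if_neg h3, if_neg h3, add_zero]
      · rw [if_pos h1, if_neg h2, if_pos h1, if_neg h2, ← h1]
        by_cases h3 : pt σ b i = x
        · rw [if_pos h3, if_pos h3]
        · rw [if_neg h3, if_neg h3, add_zero]
      · rw [if_neg h1, if_pos h2, if_neg h1, if_pos h2, ← h2]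
        by_cases h3 : pt σ b i = x
        · rw [if_pos h3, if_pos h3]
        · rw [if_neg h3, if_neg h3, add_zero]
      · rw [if_neg h1, if_neg h2, if_neg h1, if_neg h2, add_zero, ite_self]
    · rw [Finset.sum_add_distrib, Finset.sum_ite_eq', Finset.sum_ite_eq',
        if_pos (Finset.mem_univ _), if_pos (Finset.mem_univ _)]
      simp only [Pi.add_apply, Pi.single_apply, pt_succ]
      congr 1
      · by_cases h : pt σ b j = x
        · rw [if_pos h, if_pos h.symm]
        · rw [if_neg h, if_neg (Ne.symm h)]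
      · by_cases h : pt σ b (j + 1) = x
        · rw [if_pos h, if_pos h.symm]
        · rw [if_neg h, if_neg (Ne.symm h)]
  | zero =>
    rw [map_zero]
    exact zero_mem _
  | add w z _ _ hw hz =>
    rw [map_add]
    exact add_mem hw hz
  | neg w _ hw =>
    rw [map_neg]
    exact neg_mem hw

lemma res_ker [Finite X] : (res σ ξ η).ker = Qr X σ ξ η := by
  classical
  apply le_antisymm
  · intro f hf
    have h1 : ∀ b, (fun j => f (pt σ b j)) ∈ Qr (ZMod (len σ b)) (fun j => j + 1) ξ η := by
      intro b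
      rw [← QuotientAddGroup.eq_zero_iff]
      exact congrFun (AddMonoidHom.mem_ker.mp hf) b
    have : ∀ b, NeZero (len σ b) := fun b => ⟨(len_pos σ b).ne'⟩
    have : Fintype (CB σ) := Fintype.ofFinite _
    have h2 : f = ∑ b : CB σ, ext σ b (fun j => f (pt σ b j)) := by
      funext x
      rw [Finset.sum_apply]
      change f x = ∑ b : CB σ, ∑ j, if pt σ b j = x then f (pt σ b j) else 0
      rw [← Fintype.sum_sigma' (f := fun b j => if pt σ b j = x then f (pt σ b j) else 0)]
      obtain ⟨⟨b, j⟩, hbj⟩ := (par σ).surjective x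
      rw [Finset.sum_eq_single (⟨b, j⟩ : Σ b : CB σ, ZMod (len σ b))]
      · rw [← hbj, par_apply, if_pos rfl]
      · rintro ⟨b', j'⟩ _ hne
        rw [if_neg]
        intro h
        apply hne
        apply (par σ).injective
        rw [hbj]
        exact h
      · intro h
        exact absurd (Finset.mem_univ _) h
    rw [h2]
    exact sum_mem fun b _ => ext_mem σ ξ η b _ (h1 b)
  · conv_lhs => unfold Qr
    rw [AddSubgroup.closure_le]
    rintro _ ⟨x, rfl⟩
    rw [SetLike.mem_coe, AddMonoidHom.mem_ker]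
    funext b
    change QuotientAddGroup.mk (fun j => _) = _
    rw [Pi.zero_apply, QuotientAddGroup.eq_zero_iff]
    obtain ⟨⟨b0, j0⟩, hbj⟩ := (par σ).surjective x
    rw [par_apply] at hbj
    by_cases hb : b0 = b
    · subst hb
      apply AddSubgroup.subset_closure
      refine ⟨j0, ?_⟩
      funext j
      subst hbj
      simp only [Pi.add_apply, Pi.single_apply, pt_succ]
      congr 1
      · by_cases h : j = j0
        · rw [if_pos h, if_pos (by rw [h])]
        · rw [if_neg h, if_neg (fun h2 => h (pt_inj σ b0 h2))]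
      · by_cases h : j = j0 + 1
        · rw [if_pos h, if_pos (by rw [h])]
        · rw [if_neg h, if_neg (fun h2 => h (pt_inj σ b0 h2))]
    · have e1 : (fun j : ZMod (len σ b) => (Pi.single x ξ + Pi.single (σ x) η : X → E)
          (pt σ b j)) = 0 := by
        funext j
        rw [← hbj, pt_succ]
        have h3 : ∀ i, pt σ b j ≠ pt σ b0 i := by
          intro i h
          apply hb
          rw [← pt_mk σ b j, h, pt_mk σ b0 i]
        simp only [Pi.add_apply, Pi.single_apply, Pi.zero_apply]
        rw [if_neg (h3 _), if_neg (h3 _), add_zero]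
      rw [e1]
      exact zero_mem _

end cyc

theorem t_cyc : S_tc → S_cyc := by
  classical
  intro hT X _ σ E _ _ ξ η
  have hne : ∀ b, NeZero (len σ b) := fun b => ⟨(len_pos σ b).ne'⟩
  have : Fintype (CB σ) := Fintype.ofFinite _
  have e1 : Qt X σ ξ η ≃+ (∀ b : CB σ, Qt (ZMod (len σ b)) (fun j => j + 1) ξ η) :=
    (QuotientAddGroup.quotientAddEquivOfEq (res_ker σ ξ η).symm).trans
      (QuotientAddGroup.quotientKerEquivOfSurjective (res σ ξ η) (res_surj σ ξ η))
  have h1 : tc (Qt X σ ξ η) = ∏ b : CB σ, tm ξ η (len σ b) := by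
    rw [hT.1 _ _ ⟨e1⟩]
    exact hT.2.2.2.2.1 (CB σ) (fun b => Qt (ZMod (len σ b)) (fun j => j + 1) ξ η)
  have hpos : ∀ b : CB σ, (tm ξ η (len σ b) : ℝ) ≠ 0 := by
    intro b
    have := hT.2.2.2.1 (ZMod (len σ b)) E (fun j => j + 1) ξ η
    have h2 : 1 ≤ tm ξ η (len σ b) := this
    have h3 : tm ξ η (len σ b) ≠ 0 := by omega
    exact_mod_cast h3
  rw [h1]
  push_cast
  rw [Real.log_prod (fun b _ => hpos b)]
  rw [← Equiv.sum_comp (par σ) (fun x => Real.log (tm ξ η (Function.minimalPeriod σ x)) /
    Function.minimalPeriod σ x), Fintype.sum_sigma]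
  apply Finset.sum_congr rfl
  intro b _
  have h2 : ∀ j : ZMod (len σ b), Real.log (tm ξ η (Function.minimalPeriod σ (par σ ⟨b, j⟩))) /
      (Function.minimalPeriod σ (par σ ⟨b, j⟩) : ℝ) = Real.log (tm ξ η (len σ b)) / len σ b := by
    intro j
    rw [par_apply, pt_period]
  rw [Finset.sum_congr rfl (fun j _ => h2 j), Finset.sum_const, Finset.card_univ, ZMod.card,
    nsmul_eq_mul]
  have h3 : (0 : ℝ) < len σ b := by exact_mod_cast len_pos σ b
  field_simp

end Pool.Agent.Q150.TG
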