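import Pool.Agent.Q181.TG.Stm4

set_option autoImplicit false

/-!
Project TG (helper181), job TG-G2 (helper150): dependent elements of a free group, and the growth of the
torsion for cycles.
-/

namespace Pool.Agent.Q150.TG

open Pool.Agent.Q181.TG Filter Topology

/-! ### Maps between the groups `Qt` -/

section maps

variable {X : Type} (σ : X → X) {E E' : Type} [AddCommGroup E] [AddCommGroup E']

/-- the map on functions -/
def fmap (X : Type) (f : E →+ E') : (X → E) →+ (X → E') where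
  toFun y x := f (y x)
  map_zero' := by funext x; simp
  map_add' y z := by funext x; simp

lemma fmap_apply (f : E →+ E') (y : X → E) (x : X) : fmap X f y x = f (y x) := rfl

lemma Qr_map (f : E →+ E') (ξ η : E) :
    (Qr X σ ξ η).map (fmap X f) = Qr X σ (f ξ) (f η) := by
  classical
  unfold Qr
  rw [AddMonoidHom.map_closure, ← Set.range_comp]
  congr 2
  funext x
  funext y
  simp only [Function.comp_apply, fmap_apply, Pi.add_apply, map_add, Pi.single_apply]
  split_ifs <;> simp

lemma Qr_le (f : E →+ E') (ξ η : E) :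
    Qr X σ ξ η ≤ (Qr X σ (f ξ) (f η)).comap (fmap X f) := by
  rw [← AddSubgroup.map_le_iff_le_comap, Qr_map]

/-- isomorphic data give isomorphic groups -/
noncomputable def Qt_congr (e : E ≃+ E') (ξ η : E) : Qt X σ ξ η ≃+ Qt X σ (e ξ) (e η) :=
  QuotientAddGroup.congr (Qr X σ ξ η) (Qr X σ (e ξ) (e η))
    (AddEquiv.piCongrRight (fun _ : X => e)) (by
      rw [← AddMonoidHom.coe_coe e, ← Qr_map σ (e : E →+ E') ξ η]
      rfl)

end maps

lemma tm_congr (hT : S_tc) {E E' : Type} [AddCommGroup E] [AddCommGroup E'] (e : E ≃+ E')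
    (ξ η : E) (m : ℕ) : tm ξ η m = tm (e ξ) (e η) m :=
  hT.1 _ _ ⟨Qt_congr _ e ξ η⟩

/-! ### Splitting off a direct summand of rank one -/

lemma tc_single {X : Type} (σ : X → X) {E : Type} [AddCommGroup E] [IsAddTorsionFree E] (e : E)
    (f : E →+ ℤ) (hf : f e = 1) (a b : ℤ) :
    tc (Qt X σ a b) = tc (Qt X σ (a • e) (b • e)) := by
  classical
  set ι0 : ℤ →+ E := (zmultiplesHom E) e with hι0
  have hι0a : ∀ c : ℤ, ι0 c = c • e := fun c => rfl
  have h1 : Qr X σ a b ≤ (Qr X σ (a • e) (b • e)).comap (fmap X ι0) := Qr_le σ ι0 a b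
  have h2 : Qr X σ (a • e) (b • e) ≤ (Qr X σ a b).comap (fmap X f) := by
    have := Qr_le σ f (a • e) (b • e)
    rwa [map_zsmul, map_zsmul, hf, smul_eq_mul, smul_eq_mul, mul_one, mul_one] at this
  set ι := QuotientAddGroup.map (Qr X σ a b) (Qr X σ (a • e) (b • e)) (fmap X ι0) h1 with hι
  set π := QuotientAddGroup.map (Qr X σ (a • e) (b • e)) (Qr X σ a b) (fmap X f) h2 with hπ
  have hπι : ∀ x, π (ι x) = x := by
    intro x
    obtain ⟨w, rfl⟩ := QuotientAddGroup.mk_surjective x
    rw [hι, hπ, QuotientAddGroup.map_mk, QuotientAddGroup.map_mk]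
    congr 1
    funext x
    rw [fmap_apply, fmap_apply, hι0a, map_zsmul, hf, smul_eq_mul, mul_one]
  have hinj : Function.Injective ι := Function.LeftInverse.injective hπι
  -- the elements of the group of relations are multiples of `e`
  have hrel : ∀ w ∈ Qr X σ (a • e) (b • e), ∀ x, w x = f (w x) • e := by
    intro w hw
    unfold Qr at hw
    induction hw using AddSubgroup.closure_induction with
    | mem w hw =>
      obtain ⟨y, rfl⟩ := hw
      intro x
      simp only [Pi.add_apply, Pi.single_apply]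
      split_ifs <;> simp [hf, add_smul]
    | zero =>
      intro x
      simp
    | add w z _ _ hw hz =>
      intro x
      rw [Pi.add_apply, map_add, add_smul, ← hw x, ← hz x]
    | neg w _ hw =>
      intro x
      rw [Pi.neg_apply, map_neg, neg_smul, ← hw x]
  unfold tc
  apply Nat.card_congr
  refine Equiv.ofBijective (fun x : AddCommGroup.torsion (Qt X σ a b) =>
    (⟨ι x.1, ι.isOfFinAddOrder x.2⟩ : AddCommGroup.torsion (Qt X σ (a • e) (b • e)))) ⟨?_, ?_⟩
  · intro x y hxy
    exact Subtype.ext (hinj (congrArg Subtype.val hxy))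
  · rintro ⟨y, hy⟩
    have hπy : IsOfFinAddOrder (π y) := π.isOfFinAddOrder hy
    refine ⟨⟨π y, hπy⟩, Subtype.ext ?_⟩
    change ι (π y) = y
    obtain ⟨w, rfl⟩ := QuotientAddGroup.mk_surjective y
    obtain ⟨n, hn, hn2⟩ := isOfFinAddOrder_iff_nsmul_eq_zero.mp hy
    have h3 : n • w ∈ Qr X σ (a • e) (b • e) := by
      rw [← QuotientAddGroup.eq_zero_iff]
      exact hn2
    rw [hι, hπ, QuotientAddGroup.map_mk, QuotientAddGroup.map_mk]
    congr 1
    funext x
    rw [fmap_apply, fmap_apply, hι0a]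
    have h4 := hrel _ h3 x
    rw [Pi.smul_apply, map_nsmul, smul_assoc] at h4
    exact (nsmul_right_injective (by omega) h4).symm

/-- a nonzero vector is a multiple of a primitive one -/
lemma exists_prim (r : ℕ) (v : Fin r → ℤ) (hv : v ≠ 0) :
    ∃ (e : Fin r → ℤ) (f : (Fin r → ℤ) →+ ℤ) (g : ℤ), f e = 1 ∧ v = g • e := by
  classical
  set I : Ideal ℤ := Ideal.span (Set.range v) with hI
  set g : ℤ := Submodule.IsPrincipal.generator I with hg
  have hgI : Ideal.span {g} = I := Ideal.span_singleton_generator I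
  have h1 : ∀ i, g ∣ v i := by
    intro i
    rw [← Ideal.mem_span_singleton, hgI]
    exact Ideal.subset_span ⟨i, rfl⟩
  choose e he using h1
  have h2 : g ∈ I := Submodule.IsPrincipal.generator_mem I
  rw [hI, Ideal.mem_span_range_iff_exists_fun] at h2
  obtain ⟨c, hc⟩ := h2
  have hg0 : g ≠ 0 := by
    intro h
    apply hv
    funext i
    rw [he i, h]
    simp
  refine ⟨e, ⟨⟨fun y => ∑ i, c i * y i, by simp⟩, fun y z => by
    simp only [Pi.add_apply, mul_add, Finset.sum_add_distrib]⟩, g, ?_, ?_⟩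
  · change ∑ i, c i * e i = 1
    apply mul_left_cancel₀ hg0
    rw [mul_one, Finset.mul_sum]
    refine Eq.trans (Finset.sum_congr rfl fun i _ => ?_) hc
    rw [he i]
    ring
  · funext i
    rw [Pi.smul_apply, smul_eq_mul, he i]

lemma dep_mult (r : ℕ) (v w e : Fin r → ℤ) (f : (Fin r → ℤ) →+ ℤ) (g a b : ℤ) (hf : f e = 1)
    (hv : v = g • e) (hb : b ≠ 0) (h : a • v + b • w = 0) : w = f w • e := by
  have h1 : b • w = (-(a * g)) • e := by
    rw [hv] at h
    rw [neg_smul, mul_smul]
    exact eq_neg_of_add_eq_zero_right h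
  have h2 : b * f w = -(a * g) := by
    have := congrArg f h1
    rwa [map_zsmul, map_zsmul, hf, smul_eq_mul, smul_eq_mul, mul_one] at this
  have h3 : b • w = b • (f w • e) := by
    rw [h1, ← h2, mul_smul]
  exact zsmul_right_injective hb h3

theorem t_g2 : S_tc → S_bin → S_g2 := by
  intro _ hbin r ξ η hne hrel
  obtain ⟨a, b, hab, hrel⟩ := hrel
  have key : ∃ (e : Fin r → ℤ) (f : (Fin r → ℤ) →+ ℤ) (a' b' : ℤ), f e = 1 ∧ ξ = a' • e ∧
      η = b' • e := by
    by_cases hξ : ξ = 0
    · have hη : η ≠ 0 := fun h => hne ⟨hξ, h⟩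
      obtain ⟨e, f, g, h1, h2⟩ := exists_prim r η hη
      exact ⟨e, f, 0, g, h1, by rw [hξ, zero_smul], h2⟩
    · obtain ⟨e, f, g, h1, h2⟩ := exists_prim r ξ hξ
      have hb : b ≠ 0 := by
        intro hb
        rw [hb, zero_smul, add_zero] at hrel
        have ha : a ≠ 0 := fun ha => hab ⟨ha, hb⟩
        rcases smul_eq_zero.mp hrel with h3 | h3
        · exact ha h3
        · exact hξ h3
      exact ⟨e, f, g, f η, h1, h2, dep_mult r ξ η e f g a b h1 h2 hb hrel⟩
  obtain ⟨e, f, a', b', hf, hξ, hη⟩ := key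
  have hab' : ¬ (a' = 0 ∧ b' = 0) := by
    rintro ⟨rfl, rfl⟩
    exact hne ⟨by rw [hξ, zero_smul], by rw [hη, zero_smul]⟩
  refine ⟨max a'.natAbs b'.natAbs, ?_, ?_⟩
  · by_contra hcon
    push Not at hcon
    have h1 : max a'.natAbs b'.natAbs = 0 := by omega
    have h2 : a'.natAbs = 0 := by
      have := le_max_left a'.natAbs b'.natAbs
      omega
    have h3 : b'.natAbs = 0 := by
      have := le_max_right a'.natAbs b'.natAbs
      omega
    exact hab' ⟨Int.natAbs_eq_zero.mp h2, Int.natAbs_eq_zero.mp h3⟩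
  · have h1 : ∀ m : ℕ, tm ξ η m = tm a' b' m := by
      intro m
      rw [hξ, hη]
      exact (tc_single _ e f hf a' b').symm
    simp only [h1]
    exact hbin a' b' hab'

/-! ### Growth for cycles -/

lemma free_equiv (G : Type) [AddCommGroup G] [AddGroup.FG G] [IsAddTorsionFree G] :
    ∃ r : ℕ, Nonempty (G ≃+ (Fin r → ℤ)) := by
  have h1 : Module.Finite ℤ G := Module.Finite.iff_addGroup_fg.mpr inferInstance
  exact ⟨_, ⟨(Module.finBasis ℤ G).equivFun.toAddEquiv⟩⟩

theorem t_grow : S_grow' := by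
  intro hT h0 hsplit hsmall h1 h2 E _ _ ξ η
  by_cases hξη : ξ ∈ AddCommGroup.torsion E ∧ η ∈ AddCommGroup.torsion E
  · exact h0 E ξ η hξη.1 hξη.2
  · obtain ⟨r, ⟨e⟩⟩ := free_equiv (E ⧸ AddCommGroup.torsion E)
    set ξ' : Fin r → ℤ := e (QuotientAddGroup.mk ξ) with hξ'
    set η' : Fin r → ℤ := e (QuotientAddGroup.mk η) with hη'
    have hne : ¬ (ξ' = 0 ∧ η' = 0) := by
      rintro ⟨g1, g2⟩
      rw [hξ', map_eq_zero_iff e e.injective, QuotientAddGroup.eq_zero_iff] at g1
      rw [hη', map_eq_zero_iff e e.injective, QuotientAddGroup.eq_zero_iff] at g2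
      exact hξη ⟨g1, g2⟩
    obtain ⟨K, hK, hlim⟩ : ∃ K : ℕ, 1 ≤ K ∧
        Tendsto (fun m : ℕ => Real.log (tm ξ' η' m) / m) atTop (𝓝 (Real.log K)) := by
      by_cases hind : ∀ a b : ℤ, a • ξ' + b • η' = 0 → a = 0 ∧ b = 0
      · exact h1 r ξ' η' hind
      · push Not at hind
        obtain ⟨a, b, g1, g2⟩ := hind
        exact h2 r ξ' η' hne ⟨a, b, fun g3 => g2 g3.1 g3.2, g1⟩
    set N : ℕ := tc E with hN
    have hN1 : 1 ≤ N := hT.2.1 E
    refine ⟨N * K, Nat.mul_pos hN1 hK, ?_⟩
    set Ic : ℕ → ℕ := fun m => Nat.card (Qr (ZMod m) (fun j => j + 1) ξ η ⊓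
      AddCommGroup.torsion (ZMod m → E) : AddSubgroup (ZMod m → E)) with hIc
    have hN0 : (0 : ℝ) < N := by exact_mod_cast hN1
    have hK0 : (0 : ℝ) < K := by exact_mod_cast hK
    have hmain : ∀ m : ℕ, 1 ≤ m → Real.log (tm ξ η m) =
        m * Real.log N + Real.log (tm ξ' η' m) - Real.log (Ic m) ∧
        0 ≤ Real.log (Ic m) ∧ Real.log (Ic m) ≤ Real.log N := by
      intro m hm
      have g1 := hsplit E ξ η m hm
      have g2 := hsmall E ξ η m hm hξη
      rw [tm_congr hT e] at g1
      have hfin : Finite (ZMod m) := by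
        have : NeZero m := ⟨by omega⟩
        infer_instance
      have g3 : 1 ≤ tm ξ η m := hT.2.2.2.1 (ZMod m) E (fun j => j + 1) ξ η
      have g4 : 1 ≤ tm ξ' η' m := hT.2.2.2.1 (ZMod m) (Fin r → ℤ) (fun j => j + 1) ξ' η'
      have g5 : 1 ≤ Ic m := by
        by_contra hcon
        have g6 : Ic m = 0 := by omega
        rw [hIc] at g6
        simp only at g6
        rw [g6, mul_zero] at g1
        have g7 : 0 < N ^ m * tm ξ' η' m := Nat.mul_pos (pow_pos hN1 m) g4
        exact g7.ne g1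
      have g1' : (tm ξ η m : ℝ) * (Ic m : ℝ) = (N : ℝ) ^ m * (tm ξ' η' m : ℝ) := by
        exact_mod_cast g1
      have r3 : (0 : ℝ) < tm ξ η m := by exact_mod_cast g3
      have r4 : (0 : ℝ) < tm ξ' η' m := by exact_mod_cast g4
      have r5 : (1 : ℝ) ≤ Ic m := by exact_mod_cast g5
      have r6 : (Ic m : ℝ) ≤ N := by exact_mod_cast g2
      have g8 := congrArg Real.log g1'
      rw [Real.log_mul r3.ne' (by linarith), Real.log_mul (by positivity) r4.ne',
        Real.log_pow] at g8
      exact ⟨by linarith, Real.log_nonneg r5, Real.log_le_log (by linarith) r6⟩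
    have hlimI : Tendsto (fun m : ℕ => Real.log (Ic m) / m) atTop (𝓝 0) := by
      refine tendsto_of_tendsto_of_tendsto_of_le_of_le' tendsto_const_nhds
        (tendsto_const_div_atTop_nhds_zero_nat (Real.log N)) ?_ ?_
      · filter_upwards [eventually_ge_atTop 1] with m hm
        exact div_nonneg (hmain m hm).2.1 (Nat.cast_nonneg _)
      · filter_upwards [eventually_ge_atTop 1] with m hm
        exact div_le_div_of_nonneg_right (hmain m hm).2.2 (Nat.cast_nonneg _)
    have hlim2 : Tendsto (fun m : ℕ => Real.log N + Real.log (tm ξ' η' m) / m -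
        Real.log (Ic m) / m) atTop (𝓝 (Real.log N + Real.log K - 0)) :=
      (tendsto_const_nhds.add hlim).sub hlimI
    have e1 : Real.log ((N * K : ℕ) : ℝ) = Real.log N + Real.log K - 0 := by
      push_cast
      rw [Real.log_mul hN0.ne' hK0.ne', sub_zero]
    rw [e1]
    refine hlim2.congr' ?_
    filter_upwards [eventually_ge_atTop 1] with m hm
    have hm0 : (0 : ℝ) < m := by exact_mod_cast hm
    rw [(hmain m hm).1]
    field_simp

end Pool.Agent.Q150.TG
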